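import Pool.Agent.MP_037fd6_co.SlC

/-- A graph of chromatic number `ℵ₁` and size at most continuum without `K(ℵ₀,ℵ₀)`, without short
odd cycles and without the graph of Hajnal and Komjath, in which the chromatic numbers of finite
subgraphs grow arbitrarily slowly. -/
theorem Pool.Agent.Results.MP_037fd6_co.SlowGrowth.result (k : ℕ) (f : ℕ → ℕ) :
    ∃ (V : Type) (G : SimpleGraph V),
      IsLeast {κ : Cardinal.{0} | ∃ C : Type, Cardinal.mk C = κ ∧ Nonempty (G.Coloring C)}
        (Cardinal.aleph 1) ∧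
      ¬ (completeBipartiteGraph ℕ ℕ).IsContained G ∧
      (∀ r : ℕ, 1 ≤ r → r ≤ k → ¬ (SimpleGraph.cycleGraph (2 * r + 1)).IsContained G) ∧
      Cardinal.mk V ≤ Cardinal.continuum ∧
      (¬ ∃ (x y : ℕ → V) (z z' : V), Function.Injective x ∧ Function.Injective y ∧ z ≠ z' ∧
        (∀ i j, i ≤ j → G.Adj (x i) (y j)) ∧ ∀ i, G.Adj (x i) z ∧ G.Adj (x i) z') ∧
      ∀ m : ℕ, 2 ≤ m → ∀ S : Finset V, S.card ≤ f m → (G.induce (S : Set V)).Colorable m := by
  classical
  obtain ⟨V, G, h1, h2, h3, h4⟩ := Pool.Agent.MP_037fd6_co.Sl.main fun m => max (f m) (2 * k + 1)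
  refine ⟨V, G, h2, ?_, ?_, h1, h3, fun m hm S hS => h4 m hm S (hS.trans (le_max_left _ _))⟩
  · rintro ⟨φ⟩
    exact h3 ⟨fun m => φ (.inl m), fun n => φ (.inr n), φ (.inr 0), φ (.inr 1),
      φ.injective.comp Sum.inl_injective, φ.injective.comp Sum.inr_injective,
      φ.injective.ne (by simp), fun i j _ => φ.toHom.map_adj (by simp),
      fun i => ⟨φ.toHom.map_adj (by simp), φ.toHom.map_adj (by simp)⟩⟩
  · rintro r hr hk ⟨φ⟩
    obtain ⟨C⟩ := h4 2 le_rfl (Finset.univ.image φ) (Finset.card_image_le.trans (by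
      rw [Finset.card_univ, Fintype.card_fin]
      exact le_max_of_le_right (by omega)))
    have h5 : (SimpleGraph.cycleGraph (2 * r + 1)).Colorable 2 :=
      ⟨SimpleGraph.Coloring.mk (fun v => C ⟨φ v, by simp⟩) fun h => C.valid (φ.toHom.map_adj h)⟩
    have h6 := h5.chromaticNumber_le
    rw [SimpleGraph.chromaticNumber_cycleGraph_of_odd _ (by omega) ⟨r, rfl⟩] at h6
    exact absurd h6 (by decide)
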